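import Pool.Agent.Run7.h408.N2

/-!
If the exponents `j` for which `ℤ^n` and `(Aᵀ)^j ℤ^n` have a common nonzero vector have a common
divisor `d ≠ 1`, there is no well-localized orthonormal wavelet.
-/

set_option autoImplicit false

open Run7.h408

/-- Let `n ≥ 2`. If a natural number `d ≠ 1` divides every integer `j` for which
`ℤ^n ∩ (Aᵀ)^j ℤ^n ≠ {0}`, then there is no orthonormal wavelet for `(A, ℤ^n)`, with any finite
number of generators, which is well-localized of some order `N > n`. -/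
theorem Pool.Agent.Results.MP_d629b1_an.NoWaveletExponents.result (n : ℕ) (hn : 2 ≤ n)
    (A : GL (Fin n) ℝ) (hA : IsExpansive (A : Matrix (Fin n) (Fin n) ℝ))
    (d : ℕ) (hd : d ≠ 1)
    (hint : ∀ (j : ℤ) (k m : Fin n → ℤ), k ≠ 0 →
      (zv k : E n) = act (((A ^ j : GL (Fin n) ℝ) : Matrix (Fin n) (Fin n) ℝ).transpose) (zv m) →
        (d : ℤ) ∣ j)
    (N : ℝ) (hN : (n : ℝ) < N) (L : ℕ) (ψ : Fin L → E n → ℂ)
    (hψ : ∀ l, WellLocalized N (ψ l)) : ¬ IsONWavelet A ψ := by
  intro hw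
  obtain ⟨v, ε, C, hε, hC, hreg, hb⟩ := exists_freq A ψ hN hw hψ
  refine n2 hn hA hb hN hε hC hreg (d : ℤ) ?_ ?_
  · rw [Int.isUnit_iff]
    intro h
    rcases h with h | h
    · exact hd (by exact_mod_cast h)
    · omega
  · intro j m α h hα
    apply hint j α m hα
    rw [← h]
    unfold bj
    rw [coe_tr]
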