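import Pool.Agent.Run7.h408.Cut2

/-!
A set `I` of scales which is bounded above, such that all the common vectors of the lattices of
scales in `I` and of the lattices of scales outside of `I` lie in a proper subspace, excludes
well-localized orthonormal wavelets.
-/

set_option autoImplicit false

open Run7.h408

/-- Let `B = Aᵀ` and let `I` be a nonempty set of integers which is bounded above. If one proper
subspace `V` of `ℝ^n` contains `B^i ℤ^n ∩ B^j ℤ^n` for all `i ∈ I` and `j ∉ I`, then there is no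
orthonormal wavelet for `(A, ℤ^n)`, with any finite number of generators, which is well-localized
of some order `N > n`. -/
theorem Pool.Agent.Results.MP_d629b1_an.NoWaveletScales.result (n : ℕ) (hn : 0 < n)
    (A : GL (Fin n) ℝ) (hA : IsExpansive (A : Matrix (Fin n) (Fin n) ℝ))
    (I : Set ℤ) (hI : I.Nonempty) (hbdd : BddAbove I)
    (V : Submodule ℝ (E n)) (hV : V ≠ ⊤)
    (hint : ∀ i ∈ I, ∀ j ∉ I, ∀ k m : Fin n → ℤ,
      act (((A ^ i : GL (Fin n) ℝ) : Matrix (Fin n) (Fin n) ℝ).transpose) (zv k) =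
        act (((A ^ j : GL (Fin n) ℝ) : Matrix (Fin n) (Fin n) ℝ).transpose) (zv m) →
      act (((A ^ i : GL (Fin n) ℝ) : Matrix (Fin n) (Fin n) ℝ).transpose) (zv k) ∈ V)
    (N : ℝ) (hN : (n : ℝ) < N) (L : ℕ) (ψ : Fin L → E n → ℂ)
    (hψ : ∀ l, WellLocalized N (ψ l)) : ¬ IsONWavelet A ψ := by
  intro hw
  obtain ⟨v, ε, C, hε, hC, hreg, hb⟩ := exists_freq A ψ hN hw hψ
  refine n3 hn hA hb hN hε hC hreg I hI hbdd V hV ?_
  intro i hi j hj k m h
  have h1 : ∀ (t : ℤ) (x : E n), bj A t x =
      act (((A ^ t : GL (Fin n) ℝ) : Matrix (Fin n) (Fin n) ℝ).transpose) x := by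
    intro t x
    unfold bj
    rw [coe_tr]
  rw [h1] at h ⊢
  rw [h1] at h
  exact hint i hi j hj k m h
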