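import Pool.Agent.Run7.h408.Rat

/-!
Every rational expansive matrix admits a well-localized orthonormal wavelet.
-/

set_option autoImplicit false

open MeasureTheory FourierTransform
open scoped SchwartzMap

open Run7.h408

/-- Every expansive matrix with rational entries admits an orthonormal wavelet with finitely many
generators which are Schwartz functions with compactly supported Fourier transforms. -/
theorem Pool.Agent.Results.MP_d629b1_an.RationalExists.result (n : ℕ) (hn : 0 < n)
    (A : GL (Fin n) ℝ) (hA : IsExpansive (A : Matrix (Fin n) (Fin n) ℝ))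
    (hrat : ∀ i j, ∃ q : ℚ, (A : Matrix (Fin n) (Fin n) ℝ) i j = (q : ℝ)) :
    ∃ (L : ℕ) (ψ : Fin L → 𝓢(E n, ℂ)), 0 < L ∧ IsONWavelet A (fun l => (ψ l : E n → ℂ)) ∧
      (∀ l, BandLimited (ψ l)) ∧
      ∀ l N, WellLocalized N (ψ l : E n → ℂ) :=
  rational_exists n hn A hA hrat
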